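import Mathlib

namespace Pool.Agent.H.MP_369736_co

open Finset

def Fct {V : Type} (lab : V → Fin 4) : Prop :=
  ∃ (H : V → V → Prop) (θ : Fin 3 → V ≃ V), (∀ u v, H u v → H v u) ∧
    (∀ u v, lab u ≠ lab v ↔ ∃ i, H (θ i u) (θ i v)) ∧
    (∀ u v i i', H (θ i u) (θ i v) → H (θ i' u) (θ i' v) → i = i')

theorem transfer {V W : Type} (e : V ≃ W) (f : V → Fin 4) (g : W → Fin 4)
    (h : ∀ u v, f u = f v ↔ g (e u) = g (e v)) (hf : Fct f) : Fct g := by
  obtain ⟨H, θ, hs, h1, h2⟩ := hf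
  refine ⟨fun a b => H (e.symm a) (e.symm b), fun i => (e.symm.trans (θ i)).trans e,
    fun u v huv => hs _ _ huv, fun u v => ?_, fun u v i i' => ?_⟩
  · have := h (e.symm u) (e.symm v)
    simp only [Equiv.apply_symm_apply] at this
    simp only [Equiv.trans_apply, Equiv.symm_apply_apply]
    rw [← h1, Ne, Ne, this]
  · simp only [Equiv.trans_apply, Equiv.symm_apply_apply]
    exact h2 _ _ i i'

def HH {B K : Type} (lbl : K → Fin 4) (H : B → B → Prop) (N : Fin 4 → Fin 3 → B → Prop) :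
    B ⊕ K × Fin 3 → B ⊕ K × Fin 3 → Prop
  | Sum.inl x, Sum.inl y => H x y
  | Sum.inl x, Sum.inr p => N (lbl p.1) p.2 x
  | Sum.inr p, Sum.inl x => N (lbl p.1) p.2 x
  | Sum.inr p, Sum.inr q => (lbl p.1 < lbl q.1 ∧ p.2 = 0) ∨ (lbl q.1 < lbl p.1 ∧ q.2 = 0)

theorem extend {B K : Type} (lab : B → Fin 4) (lbl : K → Fin 4) (H : B → B → Prop)
    (θ : Fin 3 → B ≃ B) (N : Fin 4 → Fin 3 → B → Prop) (S : Fin 4 → Prop)
    (hs : ∀ u v, H u v → H v u)
    (h1 : ∀ u v, lab u ≠ lab v ↔ ∃ i, H (θ i u) (θ i v))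
    (h2 : ∀ u v i i', H (θ i u) (θ i v) → H (θ i' u) (θ i' v) → i = i')
    (h3 : ∀ j, S j → ∀ b w, (lab w ≠ j ↔ ∃ i, N j (b - i) (θ i w)))
    (h4 : ∀ j, S j → ∀ b w i i', N j (b - i) (θ i w) → N j (b - i') (θ i' w) → i = i')
    (hK : ∀ k, S (lbl k)) :
    Fct (Sum.elim lab (fun p : K × Fin 3 => lbl p.1)) := by
  refine ⟨HH lbl H N,
    fun i => Equiv.sumCongr (θ i) (Equiv.prodCongr (Equiv.refl K) (Equiv.subRight i)), ?_, ?_, ?_⟩
  · rintro (x | p) (y | q) h
    · exact hs _ _ h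
    · exact h
    · exact h
    · exact Or.symm h
  · rintro (x | ⟨k, b⟩) (y | ⟨k', b'⟩)
    · exact h1 x y
    · exact h3 _ (hK k') b' x
    · exact ne_comm.trans (h3 _ (hK k) b y)
    · show lbl k ≠ lbl k' ↔ ∃ i : Fin 3, (lbl k < lbl k' ∧ b - i = 0) ∨ (lbl k' < lbl k ∧ b' - i = 0)
      constructor
      · intro h
        rcases lt_or_gt_of_ne h with h | h
        · exact ⟨b, Or.inl ⟨h, sub_self b⟩⟩
        · exact ⟨b', Or.inr ⟨h, sub_self b'⟩⟩
      · rintro ⟨i, h | h⟩
        · exact h.1.ne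
        · exact h.1.ne'
  · rintro (x | ⟨k, b⟩) (y | ⟨k', b'⟩) i i'
    · exact h2 x y i i'
    · exact h4 _ (hK k') b' x i i'
    · exact h4 _ (hK k) b y i i'
    · show (lbl k < lbl k' ∧ b - i = 0) ∨ (lbl k' < lbl k ∧ b' - i = 0) →
        (lbl k < lbl k' ∧ b - i' = 0) ∨ (lbl k' < lbl k ∧ b' - i' = 0) → i = i'
      rintro (h | h) (h' | h')
      · exact (sub_eq_zero.1 h.2).symm.trans (sub_eq_zero.1 h'.2)
      · exact absurd h.1 (not_lt.2 h'.1.le)
      · exact absurd h.1 (not_lt.2 h'.1.le)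
      · exact (sub_eq_zero.1 h.2).symm.trans (sub_eq_zero.1 h'.2)

structure D where
  n : ℕ
  L : ℕ
  T : ℕ
  M : ℕ
  W : ℕ
  S : ℕ
  B : ℕ

def D.lab (d : D) (x : Fin d.n) : Fin 4 := ⟨(d.L >>> (2 * x.val)) % 4, Nat.mod_lt _ (by decide)⟩
def D.th (d : D) (i : Fin 3) (x : Fin d.n) : Fin d.n :=
  if h : (d.T >>> (4 * (16 * i.val + x.val))) % 16 < d.n then ⟨_, h⟩ else x
def D.adj (d : D) (x y : Fin d.n) : Bool := d.M.testBit (16 * x.val + y.val)
def D.N (d : D) (j : Fin 4) (a : Fin 3) (x : Fin d.n) : Bool :=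
  d.W.testBit (48 * j.val + 16 * a.val + x.val)
def D.cnt (d : D) (j : Fin 4) : ℕ := (d.B >>> (3 * j.val)) % 8
def D.ex (d : D) (j : Fin 4) : Bool := d.S.testBit j.val

def D.Good (d : D) : Prop :=
  (∀ i x y, d.th i x = d.th i y → x = y) ∧
  (∀ u v, d.adj u v = true → d.adj v u = true) ∧
  (∀ u v, d.lab u ≠ d.lab v ↔ ∃ i, d.adj (d.th i u) (d.th i v) = true) ∧
  (∀ u v i i', d.adj (d.th i u) (d.th i v) = true → d.adj (d.th i' u) (d.th i' v) = true → i = i') ∧
  (∀ j, d.ex j = true → ∀ b w, (d.lab w ≠ j ↔ ∃ i, d.N j (b - i) (d.th i w) = true)) ∧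
  (∀ j, d.ex j = true → ∀ b w i i', d.N j (b - i) (d.th i w) = true →
    d.N j (b - i') (d.th i' w) = true → i = i') ∧
  (∀ j, (univ.filter (fun x => d.lab x = j)).card = d.cnt j)

instance (d : D) : Decidable d.Good := by unfold D.Good; infer_instance

def ds : List D := [
  ⟨1, 3, 0, 0, 79228162514264619068520660993, 15, 512⟩,
  ⟨2, 15, 5444517870735015415709141624087644209168, 0, 237684487542793857205561982979, 15, 1024⟩,
  ⟨9, 260688, 11979054788778672471454021757359516611723146834448, 5784846968644605436585055549175196025216, 1628301358076980407493416788483364128214991944758067296, 15, 1682⟩,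
  ⟨7, 16020, 23308473052919168671145715891739661775848878608, 1426111762159075744553984589848, 21778071488565338573634807470041734578212, 7, 1169⟩,
  ⟨9, 261796, 499674874650927580413704287981972946257616056848, 83078096649174058026423528293400656, 1915654502478480507571476741493910541772437611696357472, 13, 2249⟩,
  ⟨5, 996, 26494385088464268770325483064244749677638160, 36894614085981700100, 478904856609793249031105938550614492971449430296887298, 9, 1097⟩,
  ⟨11, 4188820, 1699093888802490901455414682032161865922755465327120, 140304424805639917154758263634048733037755495350292, 1149371658102499979415963972875566699866965445997888010, 15, 2321⟩,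
  ⟨0, 0, 0, 0, 0, 15, 0⟩,
  ⟨8, 64080, 92892894911502835352486329094706962081575612944, 249234052393589709999383705505497100, 1149389193936696015965059795979661410834581467127873680, 15, 1170⟩,
  ⟨3, 57, 6125082604576892351803922643584827785744, 8590196736, 30064771072, 1, 584⟩,
  ⟨12, 16755284, 52019805973263217627980340600360729612301117322179088, 4406135139168937159089125067547015650669295366565789716, 12643436049533443422073219902477747390981848469843610498, 15, 2329⟩,
  ⟨13, 67086996, 1010227047102409398244484914181402686836329458684932624, 326417335870927602832034767554197551056789901803682472132712, 182688153382768551565556170846692440711773085369382, 15, 2897⟩,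
  ⟨4, 228, 2804266985795453877416169280687137538191888, 281474976776202, 6044629099199080140636168, 3, 585⟩,
  ⟨13, 67021140, 151819940740114624394891132178916150552624446087377424, 878794626744469842037784627102929685798018249792416276022080, 7758377059073069531635126326562282767033489972683474994, 15, 2337⟩]

theorem ds_good : ∀ d ∈ ds, d.Good := by decide +kernel

def pm (k : ℕ) (j : Fin 4) : Fin 4 := ⟨(k >>> (2 * j.val)) % 4, Nat.mod_lt _ (by decide)⟩

def ps : List ℕ := [228, 180, 216, 120, 156, 108, 225, 177, 201, 57, 141, 45, 210, 114, 198, 54,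
  78, 30, 147, 99, 135, 39, 75, 27]

theorem ps_inj : ∀ k ∈ ps, ∀ j j', pm k j = pm k j' → j = j' := by decide +kernel

def vec (a b c e : ℕ) (j : Fin 4) : ℕ :=
  if j.val = 0 then a else if j.val = 1 then b else if j.val = 2 then c else e

def Cov (a b c e : ℕ) : Prop :=
    ∃ d ∈ ds, ∃ k ∈ ps, ∀ j, d.cnt j ≤ vec a b c e (pm k j) ∧
      vec a b c e (pm k j) % 3 = d.cnt j % 3 ∧
      (d.ex j = true ∨ (vec a b c e (pm k j) = d.cnt j ∧ d.cnt j ≤ 3))

def ok1 (d : D) (v : ℕ) (j : Fin 4) : Bool :=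
  Nat.ble (d.cnt j) v && Nat.beq (v % 3) (d.cnt j % 3) &&
    (d.ex j || (Nat.beq v (d.cnt j) && Nat.ble (d.cnt j) 3))

def covB (a b c e : ℕ) : Bool :=
  ds.any fun d => ps.any fun k =>
    ok1 d (vec a b c e (pm k 0)) 0 && ok1 d (vec a b c e (pm k 1)) 1 &&
    ok1 d (vec a b c e (pm k 2)) 2 && ok1 d (vec a b c e (pm k 3)) 3

def r6 : List ℕ := [1, 2, 3, 4, 5, 6]

theorem cover' : (r6.all fun a => r6.all fun b => r6.all fun c => r6.all fun e =>
    !(Nat.beq ((a * b + a * c + a * e + b * c + b * e + c * e) % 3) 0) || covB a b c e) = true := by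
  decide +kernel

theorem cover : ∀ a < 7, ∀ b < 7, ∀ c < 7, ∀ e < 7, (1 ≤ a ∧ 1 ≤ b ∧ 1 ≤ c ∧ 1 ≤ e ∧
    (a * b + a * c + a * e + b * c + b * e + c * e) % 3 = 0) → Cov a b c e := by
  intro a ha b hb c hc e he ⟨h1, h2, h3, h4, h5⟩
  have hm : ∀ x, x < 7 → 1 ≤ x → x ∈ r6 := by
    intro x hx hx'
    simp only [r6, List.mem_cons, List.not_mem_nil, or_false]
    omega
  have h := cover'
  simp only [List.all_eq_true] at h
  have h' := h a (hm a ha h1) b (hm b hb h2) c (hm c hc h3) e (hm e he h4)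
  rw [h5] at h'
  have h'' : covB a b c e = true := by simpa using h'
  simp only [covB, List.any_eq_true, Bool.and_eq_true] at h''
  obtain ⟨d, hd, k, hk, ⟨⟨q0, q1⟩, q2⟩, q3⟩ := h''
  refine ⟨d, hd, k, hk, fun j => ?_⟩
  have q : ok1 d (vec a b c e (pm k j)) j = true := by
    fin_cases j
    · exact q0
    · exact q1
    · exact q2
    · exact q3
  simp only [ok1, Bool.and_eq_true, Bool.or_eq_true, Nat.ble_eq, Nat.beq_eq] at q
  exact ⟨q.1.1, q.1.2, q.2⟩

theorem card_fib (n : Fin 4 → ℕ) (c : Fin 4) :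
    Fintype.card {w : Σ i, Fin (n i) // w.1 = c} = n c := by
  rw [Fintype.card_subtype, card_filter, Fintype.sum_sigma, Finset.sum_eq_single c]
  · simp
  · intro b _ hb
    simp [hb]
  · simp

theorem of_data (n : Fin 4 → ℕ) (d : D) (hd : d.Good) (σ : Fin 4 → Fin 4)
    (hσ : Function.Injective σ)
    (h : ∀ j, d.cnt j ≤ n (σ j) ∧ n (σ j) % 3 = d.cnt j % 3 ∧ (d.ex j = true ∨ n (σ j) = d.cnt j)) :
    Fct (fun w : Σ i, Fin (n i) => w.1) := by
  obtain ⟨g0, g1, g2, g3, g4, g5, g6⟩ := hd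
  obtain ⟨a, ha⟩ : ∃ a : Fin 4 → ℕ, ∀ j, a j = (n (σ j) - d.cnt j) / 3 := ⟨_, fun _ => rfl⟩
  have hb : ∀ i, Function.Bijective (d.th i) := fun i =>
    Finite.injective_iff_bijective.1 (fun x y hxy => g0 i x y hxy)
  have hF := extend (K := Σ j, Fin (a j)) d.lab (fun k => k.1) (fun u v => d.adj u v = true)
    (fun i => Equiv.ofBijective _ (hb i)) (fun j b w => d.N j b w = true) (fun j => d.ex j = true)
    g1 g2 g3 g4 g5 (by
      rintro ⟨j, x⟩
      have hx := x.isLt
      have := ha j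
      rcases (h j).2.2 with h' | h'
      · exact h'
      · omega)
  obtain ⟨f, hf⟩ : ∃ f : Fin d.n ⊕ (Σ j, Fin (a j)) × Fin 3 → Fin 4,
      f = Sum.elim d.lab (fun p : (Σ j, Fin (a j)) × Fin 3 => p.1.1) := ⟨_, rfl⟩
  rw [← hf] at hF
  have hc : ∀ c, Fintype.card {v // σ (f v) = c} =
      Fintype.card {w : Σ i, Fin (n i) // w.1 = c} := by
    intro c
    obtain ⟨j, rfl⟩ := (Finite.injective_iff_surjective.1 hσ) c
    rw [card_fib, Fintype.card_subtype, card_filter, Fintype.sum_sum_type]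
    have e1 := g6 j
    rw [card_filter] at e1
    simp only [hσ.eq_iff, hf, Sum.elim_inl, Sum.elim_inr]
    rw [e1, Fintype.sum_prod_type, Fintype.sum_sigma, Finset.sum_eq_single j]
    · have e2 := ha j
      have e3 := h j
      simp
      omega
    · intro b _ hb
      simp [hb]
    · simp
  refine transfer (Equiv.ofFiberEquiv (f := fun v => σ (f v))
    (g := fun w : Σ i, Fin (n i) => w.1) (fun c => Fintype.equivOfCardEq (hc c))) f _ ?_ hF
  intro u v
  rw [Equiv.ofFiberEquiv_map (f := fun v => σ (f v)) (g := fun w : Σ i, Fin (n i) => w.1),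
    Equiv.ofFiberEquiv_map (f := fun v => σ (f v)) (g := fun w : Σ i, Fin (n i) => w.1),
    hσ.eq_iff]

theorem fct (n : Fin 4 → ℕ) (hn : ∀ i, 1 ≤ n i)
    (h3 : (n 0 * n 1 + n 0 * n 2 + n 0 * n 3 + n 1 * n 2 + n 1 * n 3 + n 2 * n 3) % 3 = 0) :
    Fct (fun w : Σ i, Fin (n i) => w.1) := by
  obtain ⟨c, hc⟩ : ∃ c : Fin 4 → ℕ, ∀ i, c i = if n i ≤ 3 then n i else 4 + (n i - 4) % 3 :=
    ⟨_, fun _ => rfl⟩
  have hc' : ∀ i, c i < 7 ∧ 1 ≤ c i ∧ c i % 3 = n i % 3 ∧ c i ≤ n i ∧ (c i ≤ 3 → c i = n i) := by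
    intro i
    have := hc i
    have := hn i
    split_ifs at * <;> omega
  have hm : ∀ i, c i ≡ n i [MOD 3] := fun i => (hc' i).2.2.1
  have h3' : (c 0 * c 1 + c 0 * c 2 + c 0 * c 3 + c 1 * c 2 + c 1 * c 3 + c 2 * c 3) % 3 = 0 := by
    rw [← h3]
    exact ((((((hm 0).mul (hm 1)).add ((hm 0).mul (hm 2))).add ((hm 0).mul (hm 3))).add
      ((hm 1).mul (hm 2))).add ((hm 1).mul (hm 3))).add ((hm 2).mul (hm 3))
  obtain ⟨d, hd, k, hk, h⟩ := cover (c 0) (hc' 0).1 (c 1) (hc' 1).1 (c 2) (hc' 2).1 (c 3) (hc' 3).1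
    ⟨(hc' 0).2.1, (hc' 1).2.1, (hc' 2).2.1, (hc' 3).2.1, h3'⟩
  have hv : ∀ j, vec (c 0) (c 1) (c 2) (c 3) j = c j := by
    intro j; fin_cases j <;> rfl
  refine of_data n d (ds_good d hd) (pm k) (fun j j' => ps_inj k hk j j') (fun j => ?_)
  have h1 := h j
  rw [hv] at h1
  have h2 := hc' (pm k j)
  refine ⟨by omega, by omega, ?_⟩
  rcases h1.2.2 with h' | h'
  · exact Or.inl h'
  · right; omega

theorem edge_count (n : Fin 4 → ℕ) :
    Nat.card (SimpleGraph.completeMultipartiteGraph (fun i => Fin (n i))).edgeSet =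
      n 0 * n 1 + n 0 * n 2 + n 0 * n 3 + n 1 * n 2 + n 1 * n 3 + n 2 * n 3 := by
  classical
  have h := (SimpleGraph.completeMultipartiteGraph (fun i => Fin (n i))).sum_degrees_eq_twice_card_edges
  rw [SimpleGraph.edgeFinset_card, ← Nat.card_eq_fintype_card] at h
  have hd : ∀ v : Σ i, Fin (n i), (SimpleGraph.completeMultipartiteGraph (fun i => Fin (n i))).degree v
      = ∑ j, if v.1 ≠ j then n j else 0 := by
    intro v
    rw [← SimpleGraph.card_neighborFinset_eq_degree, SimpleGraph.neighborFinset_eq_filter,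
      card_filter, Fintype.sum_sigma]
    refine Finset.sum_congr rfl (fun j _ => ?_)
    by_cases hj : v.1 = j <;> simp [hj]
  generalize Nat.card (SimpleGraph.completeMultipartiteGraph (fun i => Fin (n i))).edgeSet = m at h ⊢
  simp only [hd] at h
  rw [Fintype.sum_sigma] at h
  simp [Fin.sum_univ_four] at h
  nlinarith [h]

theorem main (n : Fin 4 → ℕ) (hn : ∀ i, 1 ≤ n i)
    (h : 3 ∣ Nat.card (SimpleGraph.completeMultipartiteGraph (fun i => Fin (n i))).edgeSet) :
    ∃ F : Fin 3 → SimpleGraph (Σ i, Fin (n i)),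
      (∀ a b, a ≠ b → Disjoint (F a) (F b)) ∧
      (⨆ a, F a) = SimpleGraph.completeMultipartiteGraph (fun i => Fin (n i)) ∧
      ∀ a b, Nonempty (F a ≃g F b) := by
  rw [edge_count] at h
  obtain ⟨H, θ, hs, h1, h2⟩ := fct n hn (Nat.mod_eq_zero_of_dvd h)
  have hirr : ∀ u, ¬ H u u := by
    intro u hu
    have := (h1 ((θ 0).symm u) ((θ 0).symm u)).2 ⟨0, by simpa using hu⟩
    exact this rfl
  obtain ⟨G, hG⟩ : ∃ G : SimpleGraph (Σ i, Fin (n i)), ∀ u v, G.Adj u v ↔ H u v :=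
    ⟨SimpleGraph.fromRel H, fun u v => by
      rw [SimpleGraph.fromRel_adj]
      constructor
      · rintro ⟨_, h | h⟩
        · exact h
        · exact hs _ _ h
      · intro h
        exact ⟨fun e => hirr u (e ▸ h), Or.inl h⟩⟩
  refine ⟨fun a => G.comap (θ a), fun a b hab => ?_, ?_, fun a b => ?_⟩
  · rw [disjoint_iff]
    ext u v
    simp only [SimpleGraph.inf_adj, SimpleGraph.comap_adj, hG, SimpleGraph.bot_adj, iff_false]
    rintro ⟨ha, hb⟩
    exact hab (h2 u v a b ha hb)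
  · ext u v
    simp only [SimpleGraph.iSup_adj, SimpleGraph.comap_adj, hG, SimpleGraph.top_adj]
    exact (h1 u v).symm
  · exact ⟨(SimpleGraph.Iso.comap (θ a) G).trans (SimpleGraph.Iso.comap (θ b) G).symm⟩

end Pool.Agent.H.MP_369736_co
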